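import Pool.Agent.Helper30.SatB.Defs

/-!
# Numerals in Peano models, and representable relations
-/

set_option autoImplicit false

namespace Pool.Agent.Helper96.PA

open FirstOrder FirstOrder.Language Pool.Agent.Helper30.SatB

/-! ### Terms -/

section Terms

variable {α : Type}

/-- the term `0` -/
def tZero : arithLang.Term α :=
  Term.func (L := arithLang) (l := 0) ⟨0, Or.inl ⟨rfl, rfl⟩⟩ ![]

/-- the term `S t` -/
def tSucc (t : arithLang.Term α) : arithLang.Term α :=
  Term.func (L := arithLang) (l := 1) ⟨0, Or.inr (Or.inl ⟨rfl, rfl⟩)⟩ ![t]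

/-- the term `t + s` -/
def tAdd (t s : arithLang.Term α) : arithLang.Term α :=
  Term.func (L := arithLang) (l := 2) ⟨0, Or.inr (Or.inr ⟨rfl, Nat.zero_lt_two⟩)⟩ ![t, s]

/-- the term `t * s` -/
def tMul (t s : arithLang.Term α) : arithLang.Term α :=
  Term.func (L := arithLang) (l := 2) ⟨1, Or.inr (Or.inr ⟨rfl, Nat.one_lt_two⟩)⟩ ![t, s]

/-- the numeral of `n` -/
def tNum : ℕ → arithLang.Term α
  | 0 => tZero
  | n + 1 => tSucc (tNum n)

variable {M : Type} [arithLang.Structure M]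

theorem realize_tZero (v : α → M) : (tZero : arithLang.Term α).realize v = pZero M := by
  exact congrArg (Structure.funMap (L := arithLang) (n := 0) ⟨0, Or.inl ⟨rfl, rfl⟩⟩)
    (Subsingleton.elim _ _)

theorem realize_tSucc (t : arithLang.Term α) (v : α → M) :
    (tSucc t).realize v = pSucc (t.realize v) := by
  exact congrArg (Structure.funMap (L := arithLang) (n := 1) ⟨0, Or.inr (Or.inl ⟨rfl, rfl⟩)⟩)
    (by funext i; fin_cases i; rfl)

theorem realize_tAdd (t s : arithLang.Term α) (v : α → M) :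
    (tAdd t s).realize v = pAdd (t.realize v) (s.realize v) := by
  exact congrArg (Structure.funMap (L := arithLang) (n := 2)
    ⟨0, Or.inr (Or.inr ⟨rfl, Nat.zero_lt_two⟩)⟩) (by funext i; fin_cases i <;> rfl)

theorem realize_tMul (t s : arithLang.Term α) (v : α → M) :
    (tMul t s).realize v = pMul (t.realize v) (s.realize v) := by
  exact congrArg (Structure.funMap (L := arithLang) (n := 2)
    ⟨1, Or.inr (Or.inr ⟨rfl, Nat.one_lt_two⟩)⟩) (by funext i; fin_cases i <;> rfl)

/-- the numeral of `n` in a structure -/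
def num (M : Type) [arithLang.Structure M] : ℕ → M
  | 0 => pZero M
  | n + 1 => pSucc (num M n)

theorem realize_tNum (n : ℕ) (v : α → M) : (tNum n : arithLang.Term α).realize v = num M n := by
  induction n with
  | zero => exact realize_tZero v
  | succ n ih =>
    show (tSucc (tNum n)).realize v = pSucc (num M n)
    rw [realize_tSucc, ih]

end Terms

/-! ### Facts on Peano models -/

section Models

variable {M : Type} [arithLang.Structure M]

theorem zero_or_succ (hM : PeanoModel M) (x : M) : x = pZero M ∨ ∃ y, x = pSucc y := by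
  have h := hM.induction 0
    ((BoundedFormula.equal (Term.var (Sum.inr 0)) tZero) ⊔
      (BoundedFormula.equal (n := 2) (Term.var (Sum.inr 0))
        (tSucc (Term.var (Sum.inr 1)))).ex) default
  have key : ∀ x : M, ((BoundedFormula.equal (L := arithLang) (n := 0 + 1)
      (Term.var (Sum.inr 0) : arithLang.Term (Empty ⊕ Fin 1)) tZero) ⊔
      (BoundedFormula.equal (L := arithLang) (n := 2) (Term.var (Sum.inr 0))
        (tSucc (Term.var (Sum.inr 1)))).ex).Realize default
        (Fin.snoc (default : Fin 0 → M) x : Fin (0 + 1) → M) ↔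
      (x = pZero M ∨ ∃ y, x = pSucc y) := by
    intro x
    rw [BoundedFormula.realize_sup, BoundedFormula.realize_ex]
    refine or_congr ?_ (exists_congr fun y => ?_)
    · show _ = _ ↔ _
      rw [realize_tZero]
      exact Iff.rfl
    · show _ = _ ↔ _
      rw [realize_tSucc]
      exact Iff.rfl
  refine (key x).1 (h ((key _).2 (Or.inl rfl)) (fun y _ => (key _).2 (Or.inr ⟨y, rfl⟩)) x)

theorem num_inj (hM : PeanoModel M) : ∀ m n : ℕ, num M m = num M n → m = n
  | 0, 0, _ => rfl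
  | 0, n + 1, h => absurd h.symm (hM.succ_ne_zero _)
  | m + 1, 0, h => absurd h (hM.succ_ne_zero _)
  | m + 1, n + 1, h => by rw [num_inj hM m n (hM.succ_inj _ _ h)]

theorem num_inj_iff (hM : PeanoModel M) (m n : ℕ) : num M m = num M n ↔ m = n :=
  ⟨num_inj hM m n, fun h => by rw [h]⟩

theorem add_num (hM : PeanoModel M) (m n : ℕ) : pAdd (num M m) (num M n) = num M (m + n) := by
  induction n with
  | zero => exact hM.add_zero _
  | succ n ih =>
    show pAdd (num M m) (pSucc (num M n)) = pSucc (num M (m + n))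
    rw [hM.add_succ, ih]

theorem mul_num (hM : PeanoModel M) (m n : ℕ) : pMul (num M m) (num M n) = num M (m * n) := by
  induction n with
  | zero => exact hM.mul_zero _
  | succ n ih =>
    show pMul (num M m) (pSucc (num M n)) = num M (m * n + m)
    rw [hM.mul_succ, ih, add_num hM]

/-- the order of the structure -/
def le (x y : M) : Prop := ∃ z, pAdd z x = y

theorem le_num_std (hM : PeanoModel M) : ∀ (b : ℕ) (x : M), le x (num M b) →
    ∃ k ≤ b, x = num M k
  | 0, x, ⟨z, hz⟩ => by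
    rcases zero_or_succ hM x with rfl | ⟨y, rfl⟩
    · exact ⟨0, le_rfl, rfl⟩
    · rw [hM.add_succ] at hz
      exact absurd hz (hM.succ_ne_zero _)
  | b + 1, x, ⟨z, hz⟩ => by
    rcases zero_or_succ hM x with rfl | ⟨y, rfl⟩
    · exact ⟨0, Nat.zero_le _, rfl⟩
    · rw [hM.add_succ] at hz
      obtain ⟨k, hk, rfl⟩ := le_num_std hM b y ⟨z, hM.succ_inj _ _ hz⟩
      exact ⟨k + 1, Nat.succ_le_succ hk, rfl⟩

theorem le_num_num (hM : PeanoModel M) (a b : ℕ) : le (num M a) (num M b) ↔ a ≤ b := by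
  constructor
  · intro h
    obtain ⟨k, hk, h⟩ := le_num_std hM b _ h
    rw [num_inj hM _ _ h]
    exact hk
  · intro h
    refine ⟨num M (b - a), ?_⟩
    rw [add_num hM, Nat.sub_add_cancel h]

theorem le_total_num (hM : PeanoModel M) : ∀ (k : ℕ) (x : M), le x (num M k) ∨ le (num M k) x
  | 0, x => Or.inr ⟨x, hM.add_zero x⟩
  | k + 1, x => by
    rcases zero_or_succ hM x with rfl | ⟨y, rfl⟩
    · exact Or.inl ⟨num M (k + 1), hM.add_zero _⟩
    · rcases le_total_num hM k y with ⟨z, hz⟩ | ⟨z, hz⟩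
      · left
        refine ⟨z, ?_⟩
        rw [hM.add_succ, hz]
        rfl
      · right
        refine ⟨z, ?_⟩
        show pAdd z (pSucc (num M k)) = _
        rw [hM.add_succ, hz]

end Models

/-! ### Formulas with variables indexed by `ℕ` -/

section Formulas

variable {β : Type}

/-- the sequence `x, v 0, v 1, …` -/
def cn (x : β) (v : ℕ → β) : ℕ → β
  | 0 => x
  | n + 1 => v n

/-- the renaming behind the existential quantifier -/
def exG : ℕ → ℕ ⊕ Fin 1
  | 0 => Sum.inr 0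
  | n + 1 => Sum.inl n

/-- existential quantification over the variable `0`, the others being shifted down -/
def exF (φ : arithLang.Formula ℕ) : arithLang.Formula ℕ :=
  BoundedFormula.ex (n := 0) (BoundedFormula.relabel (n := 1) (k := 0) exG φ)

variable {M : Type} [arithLang.Structure M]

theorem realize_exF (φ : arithLang.Formula ℕ) (v : ℕ → M) :
    (exF φ).Realize v ↔ ∃ x, φ.Realize (cn x v) := by
  unfold exF Formula.Realize
  rw [BoundedFormula.realize_ex]
  refine exists_congr fun x => ?_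
  have h := BoundedFormula.realize_relabel (L := arithLang) (m := 1) (n := 0) (φ := φ) (g := exG)
    (v := v) (xs := Fin.snoc (default : Fin 0 → M) x)
  refine h.trans ?_
  have e1 : (Sum.elim v ((Fin.snoc (default : Fin 0 → M) x : Fin (1 + 0) → M) ∘ Fin.castAdd 0) ∘ exG)
      = cn x v := by
    funext i
    cases i with
    | zero => rfl
    | succ i => rfl
  rw [e1]
  exact iff_of_eq (congrArg _ (Subsingleton.elim _ _))

/-- the formula `t ≤ s` -/
def leF (t s : arithLang.Term ℕ) : arithLang.Formula ℕ :=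
  exF ((tAdd (Term.var 0) (t.relabel (· + 1))).equal (s.relabel (· + 1)))

theorem realize_leF (t s : arithLang.Term ℕ) (v : ℕ → M) :
    (leF t s).Realize v ↔ le (t.realize v) (s.realize v) := by
  unfold leF le
  rw [realize_exF]
  refine exists_congr fun x => ?_
  rw [Formula.realize_equal, realize_tAdd, Term.realize_relabel, Term.realize_relabel]
  exact Iff.rfl

end Formulas

/-! ### Representable relations -/

/-- the relation `R` on `ℕ` is defined, at standard arguments, by one formula in all Peano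
models -/
def Rep (R : (ℕ → ℕ) → Prop) : Prop :=
  ∃ φ : arithLang.Formula ℕ, ∀ (M : Type) [arithLang.Structure M], PeanoModel M →
    ∀ v : ℕ → ℕ, φ.Realize (fun i => num M (v i)) ↔ R v

/-- the function `f` is given by a term -/
def RepT (f : (ℕ → ℕ) → ℕ) : Prop :=
  ∃ t : arithLang.Term ℕ, ∀ (M : Type) [arithLang.Structure M], PeanoModel M →
    ∀ v : ℕ → ℕ, t.realize (fun i => num M (v i)) = num M (f v)

theorem RepT.var (i : ℕ) : RepT (fun v => v i) :=
  ⟨Term.var i, fun _ _ _ _ => rfl⟩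

theorem RepT.const (k : ℕ) : RepT (fun _ => k) :=
  ⟨tNum k, fun _ _ _ _ => realize_tNum _ _⟩

theorem RepT.succ {f : (ℕ → ℕ) → ℕ} (hf : RepT f) : RepT (fun v => f v + 1) := by
  obtain ⟨t, ht⟩ := hf
  refine ⟨tSucc t, fun M _ hM v => ?_⟩
  rw [realize_tSucc, ht M hM v]
  rfl

theorem RepT.add {f g : (ℕ → ℕ) → ℕ} (hf : RepT f) (hg : RepT g) :
    RepT (fun v => f v + g v) := by
  obtain ⟨t, ht⟩ := hf
  obtain ⟨s, hs⟩ := hg
  refine ⟨tAdd t s, fun M _ hM v => ?_⟩
  rw [realize_tAdd, ht M hM v, hs M hM v, add_num hM]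

theorem RepT.mul {f g : (ℕ → ℕ) → ℕ} (hf : RepT f) (hg : RepT g) :
    RepT (fun v => f v * g v) := by
  obtain ⟨t, ht⟩ := hf
  obtain ⟨s, hs⟩ := hg
  refine ⟨tMul t s, fun M _ hM v => ?_⟩
  rw [realize_tMul, ht M hM v, hs M hM v, mul_num hM]

theorem Rep.congr {R S : (ℕ → ℕ) → Prop} (hR : Rep R) (h : ∀ v, S v ↔ R v) : Rep S := by
  obtain ⟨φ, hφ⟩ := hR
  exact ⟨φ, fun M _ hM v => (hφ M hM v).trans (h v).symm⟩

theorem Rep.not {R : (ℕ → ℕ) → Prop} (hR : Rep R) : Rep (fun v => ¬ R v) := by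
  obtain ⟨φ, hφ⟩ := hR
  refine ⟨φ.not, fun M _ hM v => ?_⟩
  rw [Formula.realize_not, hφ M hM v]

theorem Rep.and {R S : (ℕ → ℕ) → Prop} (hR : Rep R) (hS : Rep S) : Rep (fun v => R v ∧ S v) := by
  obtain ⟨φ, hφ⟩ := hR
  obtain ⟨ψ, hψ⟩ := hS
  refine ⟨φ ⊓ ψ, fun M _ hM v => ?_⟩
  rw [Formula.realize_inf, hφ M hM v, hψ M hM v]

theorem Rep.or {R S : (ℕ → ℕ) → Prop} (hR : Rep R) (hS : Rep S) : Rep (fun v => R v ∨ S v) := by
  obtain ⟨φ, hφ⟩ := hR
  obtain ⟨ψ, hψ⟩ := hS
  refine ⟨φ ⊔ ψ, fun M _ hM v => ?_⟩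
  rw [Formula.realize_sup, hφ M hM v, hψ M hM v]

theorem Rep.eq {f g : (ℕ → ℕ) → ℕ} (hf : RepT f) (hg : RepT g) : Rep (fun v => f v = g v) := by
  obtain ⟨t, ht⟩ := hf
  obtain ⟨s, hs⟩ := hg
  refine ⟨t.equal s, fun M _ hM v => ?_⟩
  rw [Formula.realize_equal, ht M hM v, hs M hM v, num_inj_iff hM]

theorem Rep.le {f g : (ℕ → ℕ) → ℕ} (hf : RepT f) (hg : RepT g) : Rep (fun v => f v ≤ g v) := by
  obtain ⟨t, ht⟩ := hf
  obtain ⟨s, hs⟩ := hg
  refine ⟨leF t s, fun M _ hM v => ?_⟩
  rw [realize_leF, ht M hM v, hs M hM v, le_num_num hM]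

theorem Rep.lt {f g : (ℕ → ℕ) → ℕ} (hf : RepT f) (hg : RepT g) : Rep (fun v => f v < g v) :=
  (Rep.le hf.succ hg).congr fun _ => Iff.rfl

theorem Rep.sub {R : (ℕ → ℕ) → Prop} (hR : Rep R) (σ : ℕ → ℕ) :
    Rep (fun v => R (fun i => v (σ i))) := by
  obtain ⟨φ, hφ⟩ := hR
  refine ⟨φ.relabel σ, fun M _ hM v => ?_⟩
  rw [Formula.realize_relabel]
  exact hφ M hM (fun i => v (σ i))

theorem Rep.subst {R : (ℕ → ℕ) → Prop} (hR : Rep R) {t : ℕ → (ℕ → ℕ) → ℕ} (ht : ∀ i, RepT (t i)) :
    Rep (fun v => R (fun i => t i v)) := by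
  obtain ⟨φ, hφ⟩ := hR
  choose s hs using ht
  refine ⟨BoundedFormula.subst φ s, fun M _ hM v => ?_⟩
  unfold Formula.Realize
  rw [BoundedFormula.realize_subst]
  have : (fun a => (s a).realize fun i => num M (v i)) = fun a => num M (t a v) := by
    funext a
    exact hs a M hM v
  rw [this]
  exact hφ M hM (fun i => t i v)

theorem cn_num (M : Type) [arithLang.Structure M] (k : ℕ) (v : ℕ → ℕ) :
    cn (num M k) (fun i => num M (v i)) = fun i => num M (cn k v i) := by
  funext i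
  cases i <;> rfl

theorem RepT.shift {f : (ℕ → ℕ) → ℕ} (hf : RepT f) : RepT (fun v => f (fun i => v (i + 1))) := by
  obtain ⟨t, ht⟩ := hf
  refine ⟨t.relabel (· + 1), fun M _ hM v => ?_⟩
  rw [Term.realize_relabel]
  exact ht M hM (fun i => v (i + 1))

theorem Rep.exLE {R : ℕ → (ℕ → ℕ) → Prop} (hR : Rep (fun v => R (v 0) (fun i => v (i + 1))))
    {f : (ℕ → ℕ) → ℕ} (hf : RepT f) : Rep (fun v => ∃ y, y ≤ f v ∧ R y v) := by
  obtain ⟨φ, hφ⟩ := hR
  obtain ⟨t, ht⟩ := hf
  refine ⟨exF (leF (Term.var 0) (t.relabel (· + 1)) ⊓ φ), fun M _ hM v => ?_⟩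
  rw [realize_exF]
  constructor
  · rintro ⟨x, hx⟩
    rw [Formula.realize_inf, realize_leF, Term.realize_relabel] at hx
    obtain ⟨h1, h2⟩ := hx
    have e : (t.realize ((cn x fun i => num M (v i)) ∘ (· + 1))) = num M (f v) := ht M hM v
    rw [e] at h1
    obtain ⟨k, hk, h⟩ := le_num_std hM _ _ h1
    have h' : x = num M k := h
    subst h'
    rw [cn_num] at h2
    exact ⟨k, hk, (hφ M hM (cn k v)).1 h2⟩
  · rintro ⟨k, hk, h⟩
    refine ⟨num M k, ?_⟩
    rw [Formula.realize_inf, realize_leF, Term.realize_relabel]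
    have e : (t.realize ((cn (num M k) fun i => num M (v i)) ∘ (· + 1))) = num M (f v) :=
      ht M hM v
    rw [e]
    refine ⟨(le_num_num hM _ _).2 hk, ?_⟩
    rw [cn_num]
    exact (hφ M hM (cn k v)).2 h

theorem Rep.allLT {R : ℕ → (ℕ → ℕ) → Prop} (hR : Rep (fun v => R (v 0) (fun i => v (i + 1))))
    {f : (ℕ → ℕ) → ℕ} (hf : RepT f) : Rep (fun v => ∀ y, y < f v → R y v) := by
  have h : Rep (fun v => ∃ y, y ≤ f v ∧ (y < f v ∧ ¬ R y v)) :=
    Rep.exLE (R := fun y v => y < f v ∧ ¬ R y v) ((Rep.lt (RepT.var 0) hf.shift).and hR.not) hf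
  refine h.not.congr fun v => ?_
  constructor
  · rintro h ⟨y, _, h1, h2⟩
    exact h2 (h y h1)
  · intro h y hy
    by_contra hc
    exact h ⟨y, hy.le, hy, hc⟩

end Pool.Agent.Helper96.PA
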