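import Pool.Agent.Helper96.PA.Sig

/-!
# Rosser separation in completions of Peano arithmetic
-/

set_option autoImplicit false

namespace Pool.Agent.Helper96.PA

open FirstOrder FirstOrder.Language Pool.Agent.Helper30.SatB

/-! ### Injectivity of the Gödel numbering -/

theorem termCode_injective {F R : ℕ → ℕ → Prop} {n : ℕ} :
    ∀ t s : (presLang F R).Term (Empty ⊕ Fin n), termCode t = termCode s → t = s := by
  intro t
  induction t with
  | var x =>
    intro s h
    cases s with
    | var y =>
      rcases x with x | x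
      · exact x.elim
      rcases y with y | y
      · exact y.elim
      simp only [termCode, Sum.elim_inr] at h
      have h2 := (Nat.pair_eq_pair.1 h).2
      rw [Fin.ext h2]
    | func f ts =>
      simp only [termCode] at h
      have h1 := (Nat.pair_eq_pair.1 h).1
      exact absurd h1 (Nat.succ_ne_zero _).symm
  | @func l f ts ih =>
    intro s h
    cases s with
    | var y =>
      simp only [termCode] at h
      have h1 := (Nat.pair_eq_pair.1 h).1
      exact absurd h1 (Nat.succ_ne_zero _)
    | @func l' f' ts' =>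
      simp only [termCode] at h
      have h1 := (Nat.pair_eq_pair.1 h).1
      have h2 := (Nat.pair_eq_pair.1 h).2
      have h3 := Nat.pair_eq_pair.1 (Nat.succ_injective h1)
      obtain ⟨hl, hf⟩ := h3
      subst hl
      have hf' : f = f' := Subtype.ext hf
      subst hf'
      have h4 := List.ofFn_injective (Encodable.encode_injective h2)
      have h5 : ts = ts' := by
        funext i
        exact ih i _ (congrFun h4 i)
      rw [h5]

theorem formulaCode_injective {F R : ℕ → ℕ → Prop} {n : ℕ}
    (φ ψ : (presLang F R).BoundedFormula Empty n) (h : formulaCode φ = formulaCode ψ) : φ = ψ := by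
  induction φ with
  | falsum =>
    cases ψ <;> simp only [formulaCode, Nat.pair_eq_pair] at h <;> first | rfl | (exact absurd h.1 (by norm_num))
  | equal t s =>
    cases ψ with
    | equal t' s' =>
      simp only [formulaCode, Nat.pair_eq_pair] at h
      rw [termCode_injective _ _ h.2.1, termCode_injective _ _ h.2.2]
    | _ => simp only [formulaCode, Nat.pair_eq_pair] at h; exact absurd h.1 (by norm_num)
  | @rel n l r ts =>
    cases ψ with
    | @rel _ l' r' ts' =>
      simp only [formulaCode, Nat.pair_eq_pair] at h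
      obtain ⟨_, ⟨hl, hr⟩, hts⟩ := h
      subst hl
      have hr' : r = r' := Subtype.ext hr
      subst hr'
      have h4 := List.ofFn_injective (Encodable.encode_injective hts)
      have h5 : ts = ts' := by
        funext i
        exact termCode_injective _ _ (congrFun h4 i)
      rw [h5]
    | _ => simp only [formulaCode, Nat.pair_eq_pair] at h; exact absurd h.1 (by norm_num)
  | imp φ₁ φ₂ ih1 ih2 =>
    cases ψ with
    | imp ψ₁ ψ₂ =>
      simp only [formulaCode, Nat.pair_eq_pair] at h
      rw [ih1 _ h.2.1, ih2 _ h.2.2]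
    | _ => simp only [formulaCode, Nat.pair_eq_pair] at h; exact absurd h.1 (by norm_num)
  | all φ ih =>
    cases ψ with
    | all ψ =>
      simp only [formulaCode, Nat.pair_eq_pair] at h
      rw [ih _ h.2]
    | _ => simp only [formulaCode, Nat.pair_eq_pair] at h; exact absurd h.1 (by norm_num)

/-! ### The Rosser formula -/

/-- The Rosser formula: there is a witness for `φ₁` such that no smaller or equal number is a
witness for `φ₀`; the variable `0` of `φᵢ` is the witness, the others are all the argument. -/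
def rosser (φ₁ φ₀ : arithLang.Formula ℕ) : arithLang.Formula ℕ :=
  exF (φ₁ ⊓ (exF (leF (Term.var 0) (Term.var 1) ⊓
    φ₀.relabel (fun i => if i = 0 then 0 else 2))).not)

theorem rosser_spec {F : ℕ →. ℕ} (hF : Nat.Partrec F) :
    ∃ ρ : arithLang.Formula ℕ, ∀ (M : Type) [arithLang.Structure M], PeanoModel M → ∀ e : ℕ,
      (1 ∈ F e → ρ.Realize (fun _ => num M e)) ∧ (0 ∈ F e → ¬ ρ.Realize (fun _ => num M e)) := by
  obtain ⟨R, hR, hFR⟩ := sigF_of_partrec hF
  -- `θ j w e := R w (e, j, j, …)`
  have hθ : ∀ j : ℕ, Rep (fun v => R (v 0) (cn (v 1) (fun _ => j))) := by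
    intro j
    have := hR.subst (t := fun i v => if i = 0 then v 0 else if i = 1 then v 1 else j) (by
      intro i
      by_cases h0 : i = 0
      · simp only [h0, if_true]; exact RepT.var 0
      · by_cases h1 : i = 1
        · simp only [h1, if_true]; exact RepT.var 1
        · simp only [h0, h1, if_false]; exact RepT.const j)
    refine this.congr fun v => iff_of_eq ?_
    show R _ _ = R _ _
    congr 1
    funext i
    cases i with
    | zero => rfl
    | succ i => simp [cn]
  have hFθ : ∀ j e, j ∈ F e ↔ ∃ w, R w (cn e (fun _ => j)) := fun j e => hFR (cn e (fun _ => j))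
  obtain ⟨φ₁, h₁⟩ := hθ 1
  obtain ⟨φ₀, h₀⟩ := hθ 0
  refine ⟨rosser φ₁ φ₀, fun M _ hM e => ?_⟩
  have hreal : (rosser φ₁ φ₀).Realize (fun _ => num M e) ↔
      ∃ w : M, φ₁.Realize (cn w (fun _ => num M e)) ∧
        ∀ w' : M, le w' w → ¬ φ₀.Realize (cn w' (fun _ => num M e)) := by
    unfold rosser
    rw [realize_exF]
    refine exists_congr fun w => ?_
    rw [Formula.realize_inf, Formula.realize_not, realize_exF, not_exists]
    refine and_congr_right fun _ => forall_congr' fun w' => ?_
    rw [Formula.realize_inf, realize_leF, Formula.realize_relabel, not_and]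
    have e1 : (cn w' (cn w fun _ => num M e) ∘ fun i => if i = 0 then 0 else 2) =
        cn w' (fun _ => num M e) := by
      funext i
      cases i with
      | zero => rfl
      | succ i => simp [cn]
    rw [e1]
    exact Iff.rfl
  have hst : ∀ (φ : arithLang.Formula ℕ) (j : ℕ), (∀ v : ℕ → ℕ,
      φ.Realize (fun i => num M (v i)) ↔ R (v 0) (cn (v 1) fun _ => j)) → ∀ k : ℕ,
      φ.Realize (cn (num M k) (fun _ => num M e)) ↔ R k (cn e fun _ => j) := by
    intro φ j h k
    have := h (cn k (fun _ => e))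
    rw [← cn_num M k (fun _ => e)] at this
    exact this
  have hst1 := hst φ₁ 1 (h₁ M hM)
  have hst0 := hst φ₀ 0 (h₀ M hM)
  rw [hreal]
  constructor
  · intro h
    obtain ⟨k, hk⟩ := (hFθ 1 e).1 h
    refine ⟨num M k, (hst1 k).2 hk, fun w' hw' h' => ?_⟩
    obtain ⟨l, _, rfl⟩ := le_num_std hM _ _ hw'
    have h0 : 0 ∈ F e := (hFθ 0 e).2 ⟨l, (hst0 l).1 h'⟩
    exact absurd (Part.mem_unique h h0) (by norm_num)
  · rintro h ⟨w, hw, hall⟩
    obtain ⟨l, hl⟩ := (hFθ 0 e).1 h
    rcases le_total_num hM l w with hwl | hlw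
    · obtain ⟨k, _, rfl⟩ := le_num_std hM _ _ hwl
      have h1 : 1 ∈ F e := (hFθ 1 e).2 ⟨k, (hst1 k).1 hw⟩
      exact absurd (Part.mem_unique h h1) (by norm_num)
    · exact hall _ hlw ((hst0 l).2 hl)

/-! ### The sentences -/

/-- the sentence `∃ x, x = e ∧ ρ(x)` -/
def sent (ρ : arithLang.Formula ℕ) (e : ℕ) : arithLang.Sentence :=
  BoundedFormula.ex (n := 0) ((BoundedFormula.equal (n := 1) (Term.var (Sum.inr 0)) (tNum e)) ⊓
    (BoundedFormula.relabel (n := 1) (k := 0) (fun _ : ℕ => (Sum.inr 0 : Empty ⊕ Fin 1)) ρ))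

theorem realize_sent (ρ : arithLang.Formula ℕ) (e : ℕ) (M : Type) [arithLang.Structure M] :
    M ⊨ sent ρ e ↔ ρ.Realize (fun _ => num M e) := by
  unfold sent Sentence.Realize Formula.Realize
  rw [BoundedFormula.realize_ex]
  have hρ : ∀ x : M, (BoundedFormula.relabel (n := 1) (k := 0)
      (fun _ : ℕ => (Sum.inr 0 : Empty ⊕ Fin 1)) ρ).Realize default
      (Fin.snoc (default : Fin 0 → M) x : Fin 1 → M) ↔
      BoundedFormula.Realize ρ (fun _ => x) default := by
    intro x
    refine (BoundedFormula.realize_relabel (L := arithLang) (m := 1) (n := 0) (φ := ρ)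
      (g := fun _ : ℕ => (Sum.inr 0 : Empty ⊕ Fin 1)) (v := default)
      (xs := (Fin.snoc (default : Fin 0 → M) x : Fin 1 → M))).trans ?_
    have e1 : ((Sum.elim (default : Empty → M)
        ((Fin.snoc (default : Fin 0 → M) x : Fin (1 + 0) → M) ∘ Fin.castAdd 0)) ∘
        fun _ : ℕ => (Sum.inr 0 : Empty ⊕ Fin 1)) = fun _ => x := rfl
    rw [e1]
    exact iff_of_eq (congrArg _ (Subsingleton.elim _ _))
  have heq : ∀ x : M, (BoundedFormula.equal (L := arithLang) (α := Empty) (n := 1)
      (Term.var (Sum.inr 0)) (tNum e)).Realize default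
      (Fin.snoc (default : Fin 0 → M) x : Fin 1 → M) ↔ x = num M e := by
    intro x
    show _ = _ ↔ _
    rw [realize_tNum]
    exact Iff.rfl
  constructor
  · rintro ⟨x, hx⟩
    rw [BoundedFormula.realize_inf] at hx
    obtain ⟨h1, h2⟩ := hx
    have h1' := (heq x).1 h1
    subst h1'
    exact (hρ _).1 h2
  · intro h
    refine ⟨num M e, ?_⟩
    rw [BoundedFormula.realize_inf]
    exact ⟨(heq _).2 rfl, (hρ _).2 h⟩

/-- the Gödel numbers of the numerals -/
def numCode : ℕ → ℕ
  | 0 => Nat.pair (Nat.pair 0 0 + 1) (Encodable.encode ([] : List ℕ))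
  | n + 1 => Nat.pair (Nat.pair 1 0 + 1) (Encodable.encode [numCode n])

theorem termCode_tNum {n : ℕ} (e : ℕ) :
    termCode (tNum e : arithLang.Term (Empty ⊕ Fin n)) = numCode e := by
  induction e with
  | zero => rfl
  | succ e ih =>
    show Nat.pair (Nat.pair 1 0 + 1) (Encodable.encode
      (List.ofFn fun i : Fin 1 => termCode ((![tNum e] : Fin 1 → arithLang.Term (Empty ⊕ Fin n)) i)))
      = Nat.pair (Nat.pair 1 0 + 1) (Encodable.encode [numCode e])
    rw [← ih]
    rfl

theorem numCode_primrec : Primrec numCode := by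
  have h : Primrec₂ (fun (_ : Unit) (p : ℕ × ℕ) =>
      Nat.pair (Nat.pair 1 0 + 1) (Encodable.encode [p.2])) := by
    refine Primrec₂.natPair.comp (Primrec.const _) (Primrec.encode.comp ?_)
    exact Primrec.list_cons.comp (Primrec.snd.comp Primrec.snd) (Primrec.const [])
  have h2 := Primrec.nat_rec (f := fun _ : Unit =>
    Nat.pair (Nat.pair 0 0 + 1) (Encodable.encode ([] : List ℕ))) (Primrec.const _) h
  refine (h2.comp (Primrec.const ()) Primrec.id).of_eq fun n => ?_
  induction n with
  | zero => rfl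
  | succ n ih =>
    have e : numCode (n + 1) =
      Nat.pair (Nat.pair 1 0 + 1) (Encodable.encode [numCode n]) := rfl
    rw [e, ← ih]
    rfl

theorem sent_code (ρ : arithLang.Formula ℕ) : ∃ K : ℕ, ∀ e, formulaCode (sent ρ e) =
    Nat.pair 3 (Nat.pair (Nat.pair 4 (Nat.pair 3 (Nat.pair (Nat.pair 3 (Nat.pair
      (Nat.pair 3 (Nat.pair (Nat.pair 1 (Nat.pair (Nat.pair 0 0) (numCode e)))
        (Nat.pair 3 (Nat.pair K (Nat.pair 0 0))))) (Nat.pair 0 0))) (Nat.pair 0 0))))
      (Nat.pair 0 0)) := by
  refine ⟨formulaCode (BoundedFormula.relabel (n := 1) (k := 0)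
    (fun _ : ℕ => (Sum.inr 0 : Empty ⊕ Fin 1)) ρ), fun e => ?_⟩
  rw [← termCode_tNum (n := 1) e]
  rfl

/-- Rosser separation in completions of Peano arithmetic. -/
theorem pa_separation : ∃ s : ℕ → ℕ, Computable s ∧ ∀ T : arithLang.Theory, T.IsMaximal →
    (∀ (M : Type) [arithLang.Structure M] [Nonempty M], M ⊨ T → PeanoModel M) →
    ∀ e : ℕ, (1 ∈ Nat.Partrec.Code.eval (Denumerable.ofNat Nat.Partrec.Code e) e →
        ∃ φ ∈ T, formulaCode φ = s e) ∧
      (0 ∈ Nat.Partrec.Code.eval (Denumerable.ofNat Nat.Partrec.Code e) e →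
        ¬ ∃ φ ∈ T, formulaCode φ = s e) := by
  have hF : Nat.Partrec (fun e => Nat.Partrec.Code.eval (Denumerable.ofNat Nat.Partrec.Code e) e) :=
    Partrec.nat_iff.1 (Nat.Partrec.Code.eval_part.comp (Computable.ofNat _) Computable.id)
  obtain ⟨ρ, hρ⟩ := rosser_spec hF
  obtain ⟨K, hK⟩ := sent_code ρ
  refine ⟨fun e => formulaCode (sent ρ e), ?_, fun T hT hPA e => ?_⟩
  · refine Primrec.to_comp (Primrec.of_eq ?_ fun e => (hK e).symm)
    have c : ∀ k : ℕ, Primrec (fun _ : ℕ => k) := fun k => Primrec.const k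
    have pr : ∀ {f g : ℕ → ℕ}, Primrec f → Primrec g → Primrec (fun e => Nat.pair (f e) (g e)) :=
      fun hf hg => Primrec₂.natPair.comp hf hg
    exact pr (c _) (pr (pr (c _) (pr (c _) (pr (pr (c _) (pr (pr (c _) (pr (pr (c _)
      (pr (c _) numCode_primrec)) (c _))) (c _))) (c _)))) (c _))
  · obtain ⟨⟨M⟩, hcomp⟩ := hT
    have hM : PeanoModel M := hPA M M.is_model
    have h := hρ M hM e
    constructor
    · intro h1
      refine ⟨sent ρ e, ?_, rfl⟩
      rcases hcomp (sent ρ e) with h' | h'
      · exact h'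
      · have h2 : M ⊨ (sent ρ e).not := M.is_model.realize_of_mem _ h'
        rw [Sentence.realize_not] at h2
        exact absurd ((realize_sent ρ e M).2 (h.1 h1)) h2
    · rintro h0 ⟨φ, hφ, hc⟩
      have hφ' : φ = sent ρ e := formulaCode_injective _ _ hc
      have h2 : M ⊨ φ := M.is_model.realize_of_mem _ hφ
      rw [hφ'] at h2
      exact h.2 h0 ((realize_sent ρ e M).1 h2)

end Pool.Agent.Helper96.PA
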