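import Pool.Agent.Helper96.PA.Basic

/-!
# Existential relations, and graphs of partial recursive functions
-/

set_option autoImplicit false

namespace Pool.Agent.Helper96.PA

open FirstOrder FirstOrder.Language Pool.Agent.Helper30.SatB

/-- `P v ↔ ∃ w, R w v` for a representable `R` -/
def Sig (P : (ℕ → ℕ) → Prop) : Prop :=
  ∃ R : ℕ → (ℕ → ℕ) → Prop, Rep (fun v => R (v 0) (fun i => v (i + 1))) ∧
    ∀ v, P v ↔ ∃ w, R w v

theorem Sig.congr {P Q : (ℕ → ℕ) → Prop} (hP : Sig P) (h : ∀ v, Q v ↔ P v) : Sig Q := by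
  obtain ⟨R, hR, hPR⟩ := hP
  exact ⟨R, hR, fun v => (h v).trans (hPR v)⟩

theorem Sig.of_rep {P : (ℕ → ℕ) → Prop} (hP : Rep P) : Sig P :=
  ⟨fun _ v => P v, hP.sub (· + 1), fun _ => ⟨fun h => ⟨0, h⟩, fun ⟨_, h⟩ => h⟩⟩

theorem Sig.and {P Q : (ℕ → ℕ) → Prop} (hP : Sig P) (hQ : Sig Q) : Sig (fun v => P v ∧ Q v) := by
  obtain ⟨R, hR, hPR⟩ := hP
  obtain ⟨S, hS, hQS⟩ := hQ
  refine ⟨fun w v => (∃ a, a ≤ w ∧ R a v) ∧ (∃ b, b ≤ w ∧ S b v), ?_, fun v => ?_⟩
  · refine Rep.and ?_ ?_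
    · refine Rep.exLE (R := fun a v => R a (fun i => v (i + 1))) ?_ (RepT.var 0)
      exact hR.sub (fun i => if i = 0 then 0 else i + 1)
    · refine Rep.exLE (R := fun a v => S a (fun i => v (i + 1))) ?_ (RepT.var 0)
      exact hS.sub (fun i => if i = 0 then 0 else i + 1)
  · show P v ∧ Q v ↔ _
    rw [hPR, hQS]
    constructor
    · rintro ⟨⟨a, ha⟩, ⟨b, hb⟩⟩
      exact ⟨max a b, ⟨a, le_max_left _ _, ha⟩, ⟨b, le_max_right _ _, hb⟩⟩
    · rintro ⟨w, ⟨a, _, ha⟩, ⟨b, _, hb⟩⟩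
      exact ⟨⟨a, ha⟩, ⟨b, hb⟩⟩

theorem Sig.ex {P : ℕ → (ℕ → ℕ) → Prop} (hP : Sig (fun v => P (v 0) (fun i => v (i + 1)))) :
    Sig (fun v => ∃ y, P y v) := by
  obtain ⟨R, hR, hPR⟩ := hP
  have hPR' : ∀ y v, P y v ↔ ∃ w, R w (cn y v) := fun y v => hPR (cn y v)
  refine ⟨fun w v => ∃ y, y ≤ w ∧ ∃ a, a ≤ w ∧ R a (cn y v), ?_, fun v => ?_⟩
  · refine Rep.exLE (R := fun y v => ∃ a, a ≤ v 0 ∧ R a (cn y (fun i => v (i + 1)))) ?_
      (RepT.var 0)
    refine Rep.exLE (R := fun a v => R a (cn (v 0) (fun i => v (i + 1 + 1)))) ?_ (RepT.var 1)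
    refine (hR.sub (fun i => if i = 0 then 0 else if i = 1 then 1 else i + 1)).congr fun v => ?_
    refine iff_of_eq (congrArg (R (v 0)) (funext fun i => ?_))
    cases i <;> rfl
  · constructor
    · rintro ⟨y, hy⟩
      obtain ⟨a, ha⟩ := (hPR' y v).1 hy
      exact ⟨max y a, y, le_max_left _ _, a, le_max_right _ _, ha⟩
    · rintro ⟨w, y, _, a, _, ha⟩
      exact ⟨y, (hPR' y v).2 ⟨a, ha⟩⟩

theorem Sig.allLT {P : ℕ → (ℕ → ℕ) → Prop} (hP : Sig (fun v => P (v 0) (fun i => v (i + 1))))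
    {f : (ℕ → ℕ) → ℕ} (hf : RepT f) : Sig (fun v => ∀ y, y < f v → P y v) := by
  obtain ⟨R, hR, hPR⟩ := hP
  have hPR' : ∀ y v, P y v ↔ ∃ w, R w (cn y v) := fun y v => hPR (cn y v)
  refine ⟨fun w v => ∀ y, y < f v → ∃ a, a ≤ w ∧ R a (cn y v), ?_, fun v => ?_⟩
  · refine Rep.allLT (R := fun y v => ∃ a, a ≤ v 0 ∧ R a (cn y (fun i => v (i + 1)))) ?_
      hf.shift
    refine Rep.exLE (R := fun a v => R a (cn (v 0) (fun i => v (i + 1 + 1)))) ?_ (RepT.var 1)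
    refine (hR.sub (fun i => if i = 0 then 0 else if i = 1 then 1 else i + 1)).congr fun v => ?_
    refine iff_of_eq (congrArg (R (v 0)) (funext fun i => ?_))
    cases i <;> rfl
  · constructor
    · intro h
      have h' : ∀ y, ∃ a, y < f v → R a (cn y v) := by
        intro y
        by_cases hy : y < f v
        · obtain ⟨a, ha⟩ := (hPR' y v).1 (h y hy)
          exact ⟨a, fun _ => ha⟩
        · exact ⟨0, fun h => absurd h hy⟩
      choose a ha using h'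
      refine ⟨(Finset.range (f v)).sup a, fun y hy => ⟨a y, ?_, ha y hy⟩⟩
      exact Finset.le_sup (Finset.mem_range.2 hy)
    · rintro ⟨w, h⟩ y hy
      obtain ⟨a, _, ha⟩ := h y hy
      exact (hPR' y v).2 ⟨a, ha⟩

theorem Sig.sub {P : (ℕ → ℕ) → Prop} (hP : Sig P) (σ : ℕ → ℕ) :
    Sig (fun v => P (fun i => v (σ i))) := by
  obtain ⟨R, hR, hPR⟩ := hP
  refine ⟨fun w v => R w (fun i => v (σ i)), ?_, fun v => hPR _⟩
  refine (hR.sub (fun i => if i = 0 then 0 else σ (i - 1) + 1)).congr fun v => Iff.rfl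

/-! ### Pairing and the beta function -/

theorem Rep.pair {f g h : (ℕ → ℕ) → ℕ} (hf : RepT f) (hg : RepT g) (hh : RepT h) :
    Rep (fun v => f v = Nat.pair (g v) (h v)) := by
  refine (((Rep.lt hg hh).and (Rep.eq hf ((hh.mul hh).add hg))).or
    ((Rep.lt hg hh).not.and (Rep.eq hf (((hg.mul hg).add hg).add hh)))).congr fun v => ?_
  rw [Nat.pair]
  by_cases hc : g v < h v <;> simp [hc]

/-- `c = p % ((i + 1) * q + 1)` -/
theorem Rep.beta {c p q i : (ℕ → ℕ) → ℕ} (hc : RepT c) (hp : RepT p) (hq : RepT q) (hi : RepT i) :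
    Rep (fun v => c v = p v % ((i v + 1) * q v + 1)) := by
  have h1 : Rep (fun v => c v < (i v + 1) * q v + 1) := Rep.lt hc ((hi.succ.mul hq).succ)
  have h2 : Rep (fun v => ∃ k, k ≤ p v ∧ p v = k * ((i v + 1) * q v + 1) + c v) := by
    refine Rep.exLE (R := fun k v => p v = k * ((i v + 1) * q v + 1) + c v) ?_ hp
    exact Rep.eq hp.shift (((RepT.var 0).mul ((hi.shift.succ.mul hq.shift).succ)).add hc.shift)
  refine (h1.and h2).congr fun v => ?_
  set m := (i v + 1) * q v + 1 with hm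
  constructor
  · intro h
    refine ⟨?_, p v / m, Nat.div_le_self _ _, ?_⟩
    · rw [h]
      exact Nat.mod_lt _ (Nat.succ_pos _)
    · rw [h, mul_comm]
      exact (Nat.div_add_mod _ _).symm
  · rintro ⟨h1, k, _, h2⟩
    rw [h2, mul_comm, Nat.mul_add_mod, Nat.mod_eq_of_lt h1]

theorem exists_beta (n : ℕ) (c : ℕ → ℕ) :
    ∃ p q : ℕ, ∀ i ≤ n, c i = p % ((i + 1) * q + 1) := by
  refine ⟨(Nat.unbeta ((List.range (n + 1)).map c)).unpair.1,
    (Nat.unbeta ((List.range (n + 1)).map c)).unpair.2, fun i hi => ?_⟩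
  have hl : i < ((List.range (n + 1)).map c).length := by simp; omega
  have := Nat.beta_unbeta_coe ((List.range (n + 1)).map c) ⟨i, hl⟩
  unfold Nat.beta at this
  rw [this]
  simp

/-! ### Graphs of partial recursive functions -/

/-- the graph of `F` is existential -/
def SigF (F : ℕ →. ℕ) : Prop := Sig (fun v => v 1 ∈ F (v 0))

theorem SigF.at {F : ℕ →. ℕ} (h : SigF F) (i j : ℕ) : Sig (fun v => v j ∈ F (v i)) :=
  Sig.sub h (fun k => if k = 0 then i else j)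

theorem mem_prec {f g : ℕ →. ℕ} (x y : ℕ) :
    y ∈ Nat.unpaired (fun a n => Nat.rec (motive := fun _ => Part ℕ) (f a) (fun y IH => do
      let i ← IH
      g (Nat.pair a (Nat.pair y i))) n) x ↔
    ∃ a n p q, x = Nat.pair a n ∧ (∃ c, c = p % ((0 + 1) * q + 1) ∧ c ∈ f a) ∧
      (∀ i, i < n → ∃ c c' u u', c = p % ((i + 1) * q + 1) ∧ c' = p % ((i + 1 + 1) * q + 1) ∧
        u = Nat.pair i c ∧ u' = Nat.pair a u ∧ c' ∈ g u') ∧
      y = p % ((n + 1) * q + 1) := by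
  have key : ∀ (a n y : ℕ), y ∈ Nat.rec (motive := fun _ => Part ℕ) (f a) (fun y IH => do
      let i ← IH
      g (Nat.pair a (Nat.pair y i))) n ↔
      ∃ c : ℕ → ℕ, c 0 ∈ f a ∧ (∀ i, i < n → c (i + 1) ∈ g (Nat.pair a (Nat.pair i (c i)))) ∧
        y = c n := by
    intro a n
    induction n with
    | zero =>
      intro y
      constructor
      · intro h
        exact ⟨fun _ => y, h, fun i hi => absurd hi (Nat.not_lt_zero i), rfl⟩
      · rintro ⟨c, h, _, rfl⟩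
        exact h
    | succ n ih =>
      intro y
      constructor
      · intro h
        have h' := Part.mem_bind_iff.1 h
        obtain ⟨z, hz, hy⟩ := h'
        obtain ⟨c, h0, hs, rfl⟩ := (ih z).1 hz
        refine ⟨fun i => if i = n + 1 then y else c i, ?_, fun i hi => ?_, by simp⟩
        · have : (0 : ℕ) ≠ n + 1 := by omega
          simp only [this, if_false]
          exact h0
        · rcases Nat.lt_succ_iff_lt_or_eq.1 hi with hi | rfl
          · have h1 : i + 1 ≠ n + 1 := by omega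
            have h2 : i ≠ n + 1 := by omega
            simp only [h1, h2, if_false]
            exact hs i hi
          · have h2 : i ≠ i + 1 := by omega
            simp only [h2, if_true, if_false]
            exact hy
      · rintro ⟨c, h0, hs, rfl⟩
        refine Part.mem_bind_iff.2 ⟨c n, (ih (c n)).2 ⟨c, h0, fun i hi => hs i (by omega), rfl⟩, ?_⟩
        exact hs n (Nat.lt_succ_self n)
  constructor
  · intro h
    have h' := (key x.unpair.1 x.unpair.2 y).1 h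
    obtain ⟨c, h0, hs, hy⟩ := h'
    obtain ⟨p, q, hpq⟩ := exists_beta x.unpair.2 c
    refine ⟨x.unpair.1, x.unpair.2, p, q, (Nat.pair_unpair x).symm, ⟨c 0, ?_, h0⟩,
      fun i hi => ⟨c i, c (i + 1), _, _, ?_, ?_, rfl, rfl, hs i hi⟩, ?_⟩
    · exact hpq 0 (Nat.zero_le _)
    · exact hpq i hi.le
    · exact hpq (i + 1) hi
    · rw [hy]
      exact hpq _ le_rfl
  · rintro ⟨a, n, p, q, rfl, ⟨c, hc, h0⟩, hs, hy⟩
    have h := (key a n y).2 ⟨fun i => p % ((i + 1) * q + 1), ?_, fun i hi => ?_, hy⟩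
    · rw [Nat.unpaired, Nat.unpair_pair]
      exact h
    · rw [hc] at h0
      exact h0
    · obtain ⟨c, c', u, u', h1, h2, h3, h4, h5⟩ := hs i hi
      rw [h4, h3, h1, h2] at h5
      exact h5

theorem sigF_of_partrec {F : ℕ →. ℕ} (hF : Nat.Partrec F) : SigF F := by
  induction hF with
  | zero =>
    refine (Sig.of_rep (Rep.eq (RepT.var 1) (RepT.const 0))).congr fun v => ?_
    exact Part.mem_some_iff
  | succ =>
    refine (Sig.of_rep (Rep.eq (RepT.var 1) (RepT.var 0).succ)).congr fun v => ?_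
    exact Part.mem_some_iff
  | left =>
    have h : Sig (fun v => ∃ z, v 0 = Nat.pair (v 1) z) :=
      Sig.ex (P := fun z v => v 0 = Nat.pair (v 1) z)
        (Sig.of_rep (Rep.pair (RepT.var 1) (RepT.var 2) (RepT.var 0)))
    refine h.congr fun v => ?_
    refine Part.mem_some_iff.trans ?_
    constructor
    · intro h
      exact ⟨(v 0).unpair.2, by rw [h, Nat.pair_unpair]⟩
    · rintro ⟨z, hz⟩
      show _ = (Nat.unpair (v 0)).1
      rw [hz, Nat.unpair_pair]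
  | right =>
    have h : Sig (fun v => ∃ z, v 0 = Nat.pair z (v 1)) :=
      Sig.ex (P := fun z v => v 0 = Nat.pair z (v 1))
        (Sig.of_rep (Rep.pair (RepT.var 1) (RepT.var 0) (RepT.var 2)))
    refine h.congr fun v => ?_
    refine Part.mem_some_iff.trans ?_
    constructor
    · intro h
      exact ⟨(v 0).unpair.1, by rw [h, Nat.pair_unpair]⟩
    · rintro ⟨z, hz⟩
      show _ = (Nat.unpair (v 0)).2
      rw [hz, Nat.unpair_pair]
  | @pair f g _ _ hf hg =>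
    have h : Sig (fun v => ∃ a b, a ∈ f (v 0) ∧ b ∈ g (v 0) ∧ v 1 = Nat.pair a b) := by
      refine Sig.ex (P := fun a v => ∃ b, a ∈ f (v 0) ∧ b ∈ g (v 0) ∧ v 1 = Nat.pair a b) ?_
      refine Sig.ex (P := fun b v => v 0 ∈ f (v 1) ∧ b ∈ g (v 1) ∧ v 2 = Nat.pair (v 0) b) ?_
      exact (SigF.at hf 2 1).and ((SigF.at hg 2 0).and
        (Sig.of_rep (Rep.pair (RepT.var 3) (RepT.var 1) (RepT.var 0))))
    refine h.congr fun v => ?_
    simp only [Seq.seq, Part.mem_bind_iff, Part.map_eq_map, Part.mem_map_iff]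
    constructor
    · rintro ⟨_, ⟨a, ha, rfl⟩, b, hb, h⟩
      exact ⟨a, b, ha, hb, h.symm⟩
    · rintro ⟨a, b, ha, hb, h⟩
      exact ⟨_, ⟨a, ha, rfl⟩, b, hb, h.symm⟩
  | @comp f g _ _ hf hg =>
    have h : Sig (fun v => ∃ z, z ∈ g (v 0) ∧ v 1 ∈ f z) :=
      Sig.ex (P := fun z v => z ∈ g (v 0) ∧ v 1 ∈ f z) ((SigF.at hg 1 0).and (SigF.at hf 0 2))
    refine h.congr fun v => ?_
    exact Part.mem_bind_iff
  | @prec f g _ _ hf hg =>
    have h : Sig (fun v => ∃ a n p q, v 0 = Nat.pair a n ∧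
        (∃ c, c = p % ((0 + 1) * q + 1) ∧ c ∈ f a) ∧
        (∀ i, i < n → ∃ c c' u u', c = p % ((i + 1) * q + 1) ∧ c' = p % ((i + 1 + 1) * q + 1) ∧
        u = Nat.pair i c ∧ u' = Nat.pair a u ∧ c' ∈ g u') ∧
        v 1 = p % ((n + 1) * q + 1)) := by
      refine Sig.ex (P := fun a v => ∃ n p q, v 0 = Nat.pair a n ∧
        (∃ c, c = p % ((0 + 1) * q + 1) ∧ c ∈ f a) ∧
        (∀ i, i < n → ∃ c c' u u', c = p % ((i + 1) * q + 1) ∧ c' = p % ((i + 1 + 1) * q + 1) ∧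
        u = Nat.pair i c ∧ u' = Nat.pair a u ∧ c' ∈ g u') ∧
        v 1 = p % ((n + 1) * q + 1)) ?_
      -- 0 = a, 1 = v0, 2 = v1
      refine Sig.ex (P := fun n v => ∃ p q, v 1 = Nat.pair (v 0) n ∧
        (∃ c, c = p % ((0 + 1) * q + 1) ∧ c ∈ f (v 0)) ∧
        (∀ i, i < n → ∃ c c' u u', c = p % ((i + 1) * q + 1) ∧ c' = p % ((i + 1 + 1) * q + 1) ∧
        u = Nat.pair i c ∧ u' = Nat.pair (v 0) u ∧ c' ∈ g u') ∧
        v 2 = p % ((n + 1) * q + 1)) ?_
      -- 0 = n, 1 = a, 2 = v0, 3 = v1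
      refine Sig.ex (P := fun p v => ∃ q, v 2 = Nat.pair (v 1) (v 0) ∧
        (∃ c, c = p % ((0 + 1) * q + 1) ∧ c ∈ f (v 1)) ∧
        (∀ i, i < v 0 → ∃ c c' u u', c = p % ((i + 1) * q + 1) ∧ c' = p % ((i + 1 + 1) * q + 1) ∧
        u = Nat.pair i c ∧ u' = Nat.pair (v 1) u ∧ c' ∈ g u') ∧
        v 3 = p % ((v 0 + 1) * q + 1)) ?_
      -- 0 = p, 1 = n, 2 = a, 3 = v0, 4 = v1
      refine Sig.ex (P := fun q v => v 3 = Nat.pair (v 2) (v 1) ∧
        (∃ c, c = v 0 % ((0 + 1) * q + 1) ∧ c ∈ f (v 2)) ∧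
        (∀ i, i < v 1 → ∃ c c' u u', c = v 0 % ((i + 1) * q + 1) ∧
          c' = v 0 % ((i + 1 + 1) * q + 1) ∧
        u = Nat.pair i c ∧ u' = Nat.pair (v 2) u ∧ c' ∈ g u') ∧
        v 4 = v 0 % ((v 1 + 1) * q + 1)) ?_
      -- 0 = q, 1 = p, 2 = n, 3 = a, 4 = v0, 5 = v1
      refine Sig.and (Sig.of_rep (Rep.pair (RepT.var 4) (RepT.var 3) (RepT.var 2)))
        (Sig.and ?_ (Sig.and ?_ (Sig.of_rep
          (Rep.beta (RepT.var 5) (RepT.var 1) (RepT.var 0) (RepT.var 2)))))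
      · refine Sig.ex (P := fun c v => c = v 1 % ((0 + 1) * v 0 + 1) ∧ c ∈ f (v 3)) ?_
        exact Sig.and (Sig.of_rep
          (Rep.beta (RepT.var 0) (RepT.var 2) (RepT.var 1) (RepT.const 0))) (SigF.at hf 4 0)
      · refine Sig.allLT (P := fun i v => ∃ c c' u u', c = v 1 % ((i + 1) * v 0 + 1) ∧
          c' = v 1 % ((i + 1 + 1) * v 0 + 1) ∧
          u = Nat.pair i c ∧ u' = Nat.pair (v 3) u ∧ c' ∈ g u') ?_ (RepT.var 2)
        -- 0 = i, 1 = q, 2 = p, 3 = n, 4 = a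
        refine Sig.ex (P := fun c v => ∃ c' u u', c = v 2 % ((v 0 + 1) * v 1 + 1) ∧
          c' = v 2 % ((v 0 + 1 + 1) * v 1 + 1) ∧
          u = Nat.pair (v 0) c ∧ u' = Nat.pair (v 4) u ∧ c' ∈ g u') ?_
        -- 0 = c, 1 = i, 2 = q, 3 = p, 5 = a
        refine Sig.ex (P := fun c' v => ∃ u u', v 0 = v 3 % ((v 1 + 1) * v 2 + 1) ∧
          c' = v 3 % ((v 1 + 1 + 1) * v 2 + 1) ∧
          u = Nat.pair (v 1) (v 0) ∧ u' = Nat.pair (v 5) u ∧ c' ∈ g u') ?_
        -- 0 = c', 1 = c, 2 = i, 3 = q, 4 = p, 6 = a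
        refine Sig.ex (P := fun u v => ∃ u', v 1 = v 4 % ((v 2 + 1) * v 3 + 1) ∧
          v 0 = v 4 % ((v 2 + 1 + 1) * v 3 + 1) ∧
          u = Nat.pair (v 2) (v 1) ∧ u' = Nat.pair (v 6) u ∧ v 0 ∈ g u') ?_
        -- 0 = u, 1 = c', 2 = c, 3 = i, 4 = q, 5 = p, 7 = a
        refine Sig.ex (P := fun u' v => v 2 = v 5 % ((v 3 + 1) * v 4 + 1) ∧
          v 1 = v 5 % ((v 3 + 1 + 1) * v 4 + 1) ∧
          v 0 = Nat.pair (v 3) (v 2) ∧ u' = Nat.pair (v 7) (v 0) ∧ v 1 ∈ g u') ?_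
        -- 0 = u', 1 = u, 2 = c', 3 = c, 4 = i, 5 = q, 6 = p, 8 = a
        exact Sig.and (Sig.of_rep
          (Rep.beta (RepT.var 3) (RepT.var 6) (RepT.var 5) (RepT.var 4)))
          (Sig.and (Sig.of_rep (Rep.beta (RepT.var 2) (RepT.var 6) (RepT.var 5)
            (RepT.var 4).succ))
          (Sig.and (Sig.of_rep (Rep.pair (RepT.var 1) (RepT.var 4) (RepT.var 3)))
          (Sig.and (Sig.of_rep (Rep.pair (RepT.var 0) (RepT.var 8) (RepT.var 1)))
            (SigF.at hg 0 2))))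
    exact h.congr fun v => mem_prec (v 0) (v 1)
  | @rfind f _ hf =>
    have h : Sig (fun v => (∃ u c, u = Nat.pair (v 0) (v 1) ∧ c = 0 ∧ c ∈ f u) ∧
        (∀ i, i < v 1 → ∃ u c, u = Nat.pair (v 0) i ∧ c ≠ 0 ∧ c ∈ f u)) := by
      refine Sig.and ?_ ?_
      · refine Sig.ex (P := fun u v => ∃ c, u = Nat.pair (v 0) (v 1) ∧ c = 0 ∧ c ∈ f u) ?_
        refine Sig.ex (P := fun c v => v 0 = Nat.pair (v 1) (v 2) ∧ c = 0 ∧ c ∈ f (v 0)) ?_
        exact (Sig.of_rep (Rep.pair (RepT.var 1) (RepT.var 2) (RepT.var 3))).and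
          ((Sig.of_rep (Rep.eq (RepT.var 0) (RepT.const 0))).and (SigF.at hf 1 0))
      · refine Sig.allLT (P := fun i v => ∃ u c, u = Nat.pair (v 0) i ∧ c ≠ 0 ∧ c ∈ f u) ?_
          (RepT.var 1)
        refine Sig.ex (P := fun u v => ∃ c, u = Nat.pair (v 1) (v 0) ∧ c ≠ 0 ∧ c ∈ f u) ?_
        refine Sig.ex (P := fun c v => v 0 = Nat.pair (v 2) (v 1) ∧ c ≠ 0 ∧ c ∈ f (v 0)) ?_
        exact (Sig.of_rep (Rep.pair (RepT.var 1) (RepT.var 3) (RepT.var 2))).and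
          ((Sig.of_rep (Rep.eq (RepT.var 0) (RepT.const 0)).not).and (SigF.at hf 1 0))
    refine h.congr fun v => ?_
    refine Nat.mem_rfind.trans ?_
    refine and_congr ?_ ?_
    · rw [Part.map_eq_map, Part.mem_map_iff]
      constructor
      · rintro ⟨c, hc, h⟩
        exact ⟨_, c, rfl, by simpa using h, hc⟩
      · rintro ⟨_, c, rfl, h, hc⟩
        exact ⟨c, hc, by simpa using h⟩
    · constructor
      · intro h i hi
        have := h hi
        rw [Part.map_eq_map, Part.mem_map_iff] at this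
        obtain ⟨c, hc, h⟩ := this
        exact ⟨_, c, rfl, by simpa using h, hc⟩
      · intro h i hi
        obtain ⟨_, c, rfl, h, hc⟩ := h i hi
        rw [Part.map_eq_map, Part.mem_map_iff]
        exact ⟨c, hc, by simpa using h⟩

end Pool.Agent.Helper96.PA
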